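import Mathlib
import Pool.Agent.W442.Shang.Defs
import Pool.Agent.W442.Shang.Exist
import Pool.Agent.W442.Shang.Alt

/-!
# The conjectural character formula of Shang for free alternative algebras is false

Let `V` be a vector space of dimension `D ≥ 9`.  There is exactly one pair `a(V), b(V)` of
(virtual) characters without constant term such that `Φ = λ (a(V) [L(α₁ + α₂)] + b(V) [L(0)])`
satisfies `[Φ : [L(0)]] = 1` and `[Φ : [L(α₁ + α₂)]] = - [V]`, and the character `[Alt(V)]` of the
free alternative algebra on `V` is different from `a(V)`.

The proof.  At squarefree monomials `λ` is the exponential series of `- f`, so that the coefficient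
of `a(V)` at a product of `n` different variables is a number `a n`, which is computed from the
multiplicities `1, 0, 1, 2, 8, 32, 145, 702, 3598, 19280, 107160` of the trivial module in the powers
of the adjoint module.  The result is `1, 2, 7, 32, 175, 1080, 7196, 49616, 336364`.  For `n ≤ 6`
these are the dimensions of the multilinear components of free alternative algebras; but
`336364 < 362880 = 9!`, and the free associative algebra is a quotient of the free alternative
algebra, so that the multilinear component of degree nine has at least the dimension `9!`.
-/

namespace Pool.Agent.Results.MP_9e3efc_al.ShangFails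

open Pool.Agent.W442.Shang

/-- For `V` of dimension at least nine the pair `a(V), b(V)` of Shang exists and is unique, and the
character of the free alternative algebra on `V` is not `a(V)`. -/
theorem result (k : Type) [Field k] (D : ℕ) (hD : 9 ≤ D) :
    ∃ a b : MvPowerSeries (Fin D) ℤ, IsShangPair a b ∧
      (∀ a' b' : MvPowerSeries (Fin D) ℤ, IsShangPair a' b' → a' = a ∧ b' = b) ∧
      chAlt k D ≠ a := by
  obtain ⟨a, b, h⟩ := exists_pair D
  refine ⟨a, b, h, fun a' b' h' => unique_pair h h', fun hne => ?_⟩
  obtain ⟨S, -, hS⟩ := Finset.exists_subset_card_eq
    (s := (Finset.univ : Finset (Fin D))) (n := 9) (by simpa using hD)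
  have h1 := coeff_nine h S hS
  rw [← hne] at h1
  have h2 : MvPowerSeries.coeff (ind S) (chAlt k D) =
    (Module.finrank k (altComp k (X := Fin D) (ind S)) : ℤ) := rfl
  have h3 := factorial_le k S (Finset.card_pos.1 (by omega))
  rw [hS] at h3
  have h4 : Nat.factorial 9 = 362880 := by decide
  rw [h4] at h3
  rw [h2] at h1
  omega

end Pool.Agent.Results.MP_9e3efc_al.ShangFails
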